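import Mathlib
import Pool.Agent.H694R2.SymMod

/-! # Symmetric refutations over circuits with `MOD_m` gates, `m` arbitrary

The near-model theorem of `Pool.Agent.H694R2.SymMod`, for gates which count modulo an arbitrary
number instead of a prime. -/

namespace Pool.Agent.W956.SMP

open Equiv Pool.Agent.H522R2.SmallIndex Pool.Agent.H694R2.SymMod

variable {p : ℕ} {A V 𝒢 : Type}

/-- The class `𝒮` of pairs `(X, a)` (a set of atoms and an assignment) is a class of near-models of
the clauses `𝒜`: deleting `X`, all clauses with small support outside `X` hold. -/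
structure NearM (A : Type) [DecidableEq A] [Fintype A] [MulAction (Perm A) V]
    (𝒜 : Set (Set (V × Bool))) (p k x : ℕ) (𝒮 : Finset A → (V → Prop) → Prop) : Prop where
  card : ∀ X a, 𝒮 X a → X.card ≤ x
  move : ∀ X a, 𝒮 X a → ∀ σ : Perm A, 𝒮 (X.image σ) (fun v => a (σ⁻¹ • v))
  var : ∀ v : V, ∃ S : Finset A, S.card < k ∧ Sup S v
  ax : ∀ α ∈ 𝒜, ∃ D : Finset A, D.card < k ∧ ∀ X a, 𝒮 X a → Disjoint D X →
    ∃ l ∈ α, Unt k X l.1 ∧ (a l.1 ↔ l.2 = true)
  shift : ∀ X a, 𝒮 X a → ∃ g : Perm A, Perm.sign g = 1 ∧ (∀ y, y ∉ X → g y = y) ∧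
    (∀ v, a (g • v) ↔ a v) ∧ ∀ i : ℕ, ¬ p ∣ i →
    ∀ D ⊆ X, (∀ y ∈ D, (g ^ i) y ∈ D) → D.Nonempty → k ≤ D.card
  ne : ∃ X a, 𝒮 X a

/-- the number of elements of a set permuted by cycles whose lengths are divisible by `m` -/
theorem dvd_card_of_perm {ι : Type} [Fintype ι] [DecidableEq ι] {m : ℕ} (τ : Perm ι)
    (h : ∀ (i : ι) (l : ℕ), (τ ^ l) i = i → m ∣ l) : m ∣ Fintype.card ι := by
  by_cases hne : Nonempty ι
  swap
  · rw [not_nonempty_iff] at hne
    rw [Fintype.card_eq_zero]; exact dvd_zero m
  by_cases hm : m = 1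
  · rw [hm]; exact one_dvd _
  have hsup : τ.support = Finset.univ := by
    rw [Finset.eq_univ_iff_forall]
    intro i
    rw [Perm.mem_support]
    intro hi
    exact hm (Nat.dvd_one.1 (h i 1 (by simpa using hi)))
  rw [← Finset.card_univ, ← hsup, ← Perm.sum_cycleType]
  apply Multiset.dvd_sum
  intro n hn
  rw [Perm.cycleType_def, Multiset.mem_map] at hn
  obtain ⟨c, hc, rfl⟩ := hn
  have hc' : c ∈ τ.cycleFactorsFinset := hc
  rw [Perm.mem_cycleFactorsFinset_iff] at hc'
  obtain ⟨hcyc, hcτ⟩ := hc'
  obtain ⟨i, hi⟩ := hcyc.nonempty_support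
  apply h i
  show (τ ^ c.support.card) i = i
  have h1 : c = τ.cycleOf i := Perm.cycle_is_cycleOf hi hc
  have h2 := Perm.cycleOf_pow_apply_self τ i c.support.card
  rw [← h2, ← h1]
  have h3 : c ^ c.support.card = 1 := by
    rw [← hcyc.orderOf]; exact pow_orderOf_eq_one c
  rw [h3]; rfl

/-- sums invariant under a permutation only depend on the points whose orbits have a length which is
not divisible by the modulus -/
theorem sum_eq_zero_of_perm' {ι : Type} [Fintype ι] [NeZero p] (f : Perm ι)
    (F : ι → ZMod p) (hF : ∀ i, F (f i) = F i)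
    (h0 : ∀ (i : ι) (l : ℕ), ¬ p ∣ l → (f ^ l) i = i → F i = 0) : ∑ i, F i = 0 := by
  classical
  rw [← Finset.sum_fiberwise Finset.univ F F]
  apply Finset.sum_eq_zero
  intro v _
  rw [Finset.sum_congr rfl (fun i hi => (Finset.mem_filter.1 hi).2), Finset.sum_const]
  by_cases hv : v = 0
  · rw [hv]; simp
  have hiff : ∀ i, F (f i) = v ↔ F i = v := by
    intro i; rw [hF]
  let τ : Perm {i // F i = v} := f.subtypePerm hiff
  have h1 : ∀ m : ℕ, ∀ i : {i // F i = v}, ((τ ^ m) i).1 = (f ^ m) i.1 := by
    intro m
    induction m with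
    | zero => intro i; rfl
    | succ m ih => intro i; rw [pow_succ, pow_succ, Perm.mul_apply, Perm.mul_apply, ih]; rfl
  have h2 : p ∣ Fintype.card {i // F i = v} := by
    apply dvd_card_of_perm τ
    intro i l hl
    by_contra hcon
    have h3 : (f ^ l) i.1 = i.1 := by rw [← h1, hl]
    exact hv (i.2.symm.trans (h0 _ l hcon h3))
  rw [Fintype.card_subtype] at h2
  have h5 : ((Finset.univ.filter (fun i => F i = v)).card : ZMod p) = 0 := by
    rw [ZMod.natCast_eq_zero_iff]
    exact h2
  rw [nsmul_eq_mul, h5, zero_mul]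

section sound

variable [DecidableEq A] [Fintype A] [Fintype V] [Fintype 𝒢] [DecidableEq V] [DecidableEq 𝒢]
  [MulAction (Perm A) V] [MulAction (Perm A) 𝒢]
  {𝒜 : Set (Set (V × Bool))} {k x b : ℕ} {𝒮 : Finset A → (V → Prop) → Prop}

theorem soundM [NeZero p] {C : Circuit p V 𝒢} (hC : C.Symmetric A)
    (hN : NearM A 𝒜 p k x 𝒮)
    (hcard : x + (b + 3) * k ≤ Fintype.card A) (hk : 2 ≤ k) (hb : 2 ≤ b)
    (hsm : ∀ q : Node V 𝒢, ∃ S : Finset A, S.card < k ∧ Sup S q)
    (Γ : Sequent V 𝒢) (hΓ : Der C 𝒜 b Γ) :
    ∀ X a, 𝒮 X a → (∀ l ∈ Γ, Unt k X l.1) → ∃ l ∈ Γ, (TT C k X a l.1 ↔ l.2 = true) := by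
  classical
  induction hΓ with
  | step S Γ _ hstep hΓb ih =>
    intro X a hs hU
    have hroom : (b + 3) * k = b * (k - 1) + b + 3 * k := by
      obtain ⟨k', rfl⟩ : ∃ k', k = k' + 1 := ⟨k - 1, by omega⟩
      simp only [Nat.add_sub_cancel]; ring
    have hXc := hN.card X a hs
    obtain ⟨W, hWc, hWX, hWs⟩ := joint_support (k := k) Γ hU
    have hWb : W.card ≤ b * (k - 1) := hWc.trans (Nat.mul_le_mul_right _ hΓb)
    have hfixΓ : ∀ τ : Perm A, Perm.sign τ = 1 → (∀ w ∈ W, τ w = w) →
        ∀ l ∈ Γ, τ • l.1 = l.1 := by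
      intro τ h1 h2 l hl
      obtain ⟨S', e1, _, e3⟩ := hWs l hl
      exact e3.fix τ h1 (fun y hy => h2 y (e1 hy))
    have hTτ : ∀ τ : Perm A, Perm.sign τ = 1 → (∀ w ∈ W, τ w = w) →
        ∀ l ∈ Γ, (TT C k (X.image τ) (fun v => a (τ⁻¹ • v)) l.1 ↔ TT C k X a l.1) := by
      intro τ h1 h2 l hl
      have := TT_mv hC k X a τ l.1
      rwa [hfixΓ τ h1 h2 l hl] at this
    have hUτ : ∀ τ : Perm A, Perm.sign τ = 1 → (∀ w ∈ W, τ w = w) →
        ∀ l ∈ Γ, Unt k (X.image τ) l.1 := by
      intro τ h1 h2 l hl
      have := (unt_mv k X τ l.1).2 (hU l hl)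
      rwa [hfixΓ τ h1 h2 l hl] at this
    -- moving to a state in which a small set is untouched
    have hmove' : ∀ S' : Finset A, S'.card < k → ∃ X' a', 𝒮 X' a' ∧
        (∀ l ∈ Γ, Unt k X' l.1) ∧ Disjoint S' X' ∧
        ((∃ l ∈ Γ, (TT C k X' a' l.1 ↔ l.2 = true)) → ∃ l ∈ Γ, (TT C k X a l.1 ↔ l.2 = true)) := by
      intro S' hS'
      obtain ⟨τ, t1, t2, t3, t4⟩ := move_perm W S' X hWX (by omega) (by omega)
      refine ⟨_, _, hN.move X a hs τ, hUτ τ t1 t2, t4, ?_⟩
      rintro ⟨l, hl, hl'⟩
      exact ⟨l, hl, (hTτ τ t1 t2 l hl).symm.trans hl'⟩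
    have hmove : ∀ q : Node V 𝒢, ∃ X' a', 𝒮 X' a' ∧
        (∀ l ∈ Γ, Unt k X' l.1) ∧ Unt k X' q ∧
        ((∃ l ∈ Γ, (TT C k X' a' l.1 ↔ l.2 = true)) → ∃ l ∈ Γ, (TT C k X a l.1 ↔ l.2 = true)) := by
      intro q
      obtain ⟨S', hS', hSq⟩ := hsm q
      obtain ⟨X', a', h1, h2, h3, h4⟩ := hmove' S' hS'
      exact ⟨X', a', h1, h2, ⟨S', hS', h3, hSq⟩, h4⟩
    -- the shift
    obtain ⟨g₀, hsign, hout, hainv, horb'⟩ := hN.shift X a hs
    have hout' : ∀ (i : ℕ) (y : A), y ∉ X → (g₀ ^ i) y = y := by
      intro i y hy
      induction i with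
      | zero => rfl
      | succ i ih => rw [pow_succ, Perm.mul_apply, hout y hy, ih]
    have h2k : 2 * k + 2 ≤ Fintype.card A := by omega
    have hfixU : ∀ n : Node V 𝒢, Unt k X n → g₀ • n = n := by
      rintro n ⟨S', _, h2, h3⟩
      exact h3.fix g₀ hsign (fun y hy => hout y (Finset.disjoint_left.1 h2 hy))
    have hUfix : ∀ (n : Node V 𝒢) (i : ℕ), ¬ p ∣ i → g₀ ^ i • n = n → Unt k X n := by
      intro n i hi hn
      obtain ⟨S', hS', hSn⟩ := hsm n
      exact hSn.unt_of_fix hS' h2k (g₀ ^ i) hn (hout' i) (horb' i hi)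
    have himg : X.image g₀ = X := by
      apply Finset.eq_of_subset_of_card_le
      · intro y hy
        obtain ⟨z, hz, rfl⟩ := Finset.mem_image.1 hy
        by_contra hgz
        have := hout _ hgz
        rw [g₀.injective this] at hgz
        exact hgz hz
      · rw [Finset.card_image_of_injective _ g₀.injective]
    have hainv' : (fun v => a (g₀⁻¹ • v)) = a := by
      funext v
      apply propext
      rw [← hainv, smul_inv_smul]
    have hTTinv : ∀ c : Node V 𝒢, TT C k X a (g₀ • c) ↔ TT C k X a c := by
      intro c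
      have := TT_mv hC k X a g₀ c
      rwa [himg, hainv'] at this
    have hUinv : ∀ c : Node V 𝒢, Unt k X (g₀ • c) ↔ Unt k X c := by
      intro c
      have := unt_mv k X g₀ c
      rwa [himg] at this
    have hind : ∀ c : Node V 𝒢, ind (p := p) C k X a (g₀ • c) = ind C k X a c := by
      intro c
      unfold ind
      simp only [hUinv c, hTTinv c]
    have hmultinv : ∀ g : 𝒢, g₀ • g = g → ∀ c : Node V 𝒢, C.mult g (g₀ • c) = C.mult g c := by
      intro g hg c
      have := (hC g₀ g).2 c
      rwa [hg] at this
    have hpowperm : ∀ (i : ℕ) (n : Node V 𝒢),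
        ((MulAction.toPerm g₀ : Perm (Node V 𝒢)) ^ i) n = g₀ ^ i • n := by
      intro i n
      rw [← MulAction.toPermHom_apply, ← map_pow]
      rfl
    cases hstep with
    | id c =>
      by_cases h : TT C k X a c
      · exact ⟨(c, true), by simp, by simp [h]⟩
      · exact ⟨(c, false), by simp, by simp [h]⟩
    | ax _ α hα hax =>
      obtain ⟨D, hD, hDα⟩ := hN.ax α hα
      obtain ⟨X', a', h1, h2, h3, h4⟩ := hmove' D hD
      apply h4
      obtain ⟨l, hl, hlU, hla⟩ := hDα X' a' h1 h3
      obtain ⟨m, hm, hm'⟩ := ih _ (hax l hl) X' a' h1 (by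
        intro m hm
        rcases Finset.mem_insert.1 hm with rfl | hm
        · obtain ⟨S', e1, e2, e3⟩ := hlU
          refine ⟨S', e1, e2, ?_⟩
          intro y z w hy hz hw g1 g2 g3
          show Sum.inl (cyc y z w • l.1) = _
          rw [e3 y z w hy hz hw g1 g2 g3]
        · exact h2 m hm)
      rcases Finset.mem_insert.1 hm with rfl | hm
      · exfalso
        have hm'' : a' l.1 ↔ (!l.2) = true := by
          rw [← hm']
          show _ ↔ T C _ _ (Sum.inl l.1)
          rw [T_inl]
        rw [hla] at hm''
        cases h : l.2 <;> simp [h] at hm''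
      · exact ⟨m, hm, hm'⟩
    | weak Δ _ hΔ hsub =>
      obtain ⟨l, hl, hl'⟩ := ih _ hΔ X a hs (fun l hl => hU l (hsub hl))
      exact ⟨l, hsub hl, hl'⟩
    | cut _ c h1 h2 =>
      obtain ⟨X', a', g1, g2, g3, g4⟩ := hmove c
      apply g4
      by_cases hc : TT C k X' a' c
      · obtain ⟨l, hl, hl'⟩ := ih _ h2 X' a' g1 (by
          intro l hl
          rcases Finset.mem_insert.1 hl with rfl | hl
          · exact g3
          · exact g2 l hl)
        rcases Finset.mem_insert.1 hl with rfl | hl
        · simp [hc] at hl'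
        · exact ⟨l, hl, hl'⟩
      · obtain ⟨l, hl, hl'⟩ := ih _ h1 X' a' g1 (by
          intro l hl
          rcases Finset.mem_insert.1 hl with rfl | hl
          · exact g3
          · exact g2 l hl)
        rcases Finset.mem_insert.1 hl with rfl | hl
        · simp [hc] at hl'
        · exact ⟨l, hl, hl'⟩
    | negR Δ g c hg hc h =>
      by_cases hT : TT C k X a (Sum.inr g)
      · exact ⟨_, Finset.mem_insert_self _ _, by simp [hT]⟩
      · have hT' := hT
        rw [TT, T_neg C _ _ g hg, not_not] at hT'
        obtain ⟨c', hc', hUc, hTc⟩ := hT'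
        obtain ⟨c'', hch⟩ := C.neg_one g hg
        rw [hch] at hc hc'
        have : c' = c := hc'.trans hc.symm
        subst this
        obtain ⟨l, hl, hl'⟩ := ih _ h X a hs (by
          intro l hl
          rcases Finset.mem_insert.1 hl with rfl | hl
          · exact hUc
          · exact hU l (Finset.mem_insert_of_mem hl))
        rcases Finset.mem_insert.1 hl with rfl | hl
        · simp only [Bool.false_eq_true, iff_false] at hl'
          exact absurd hTc hl'
        · exact ⟨l, Finset.mem_insert_of_mem hl, hl'⟩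
    | negL Δ g c hg hc h =>
      by_cases hT : TT C k X a (Sum.inr g)
      · have hT' := hT
        rw [TT, T_neg C _ _ g hg] at hT'
        obtain ⟨c'', hch⟩ := C.neg_one g hg
        have hUc : Unt k X c := by
          obtain ⟨S', e1, e2, e3⟩ := hU _ (Finset.mem_insert_self _ _)
          refine ⟨S', e1, e2, ?_⟩
          intro x y z hx hy hz h1 h2 h3
          have h4 := e3 x y z hx hy hz h1 h2 h3
          have h5 : (cyc x y z) • g = g := by
            have : (Sum.inr ((cyc x y z) • g) : Node V 𝒢) = Sum.inr g := h4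
            exact Sum.inr.inj this
          have h6 : C.mult g (cyc x y z • c) ≠ 0 := by
            have h7 := (hC (cyc x y z) g).2 c
            rw [h5] at h7
            rwa [h7]
          rw [hch] at h6 hc
          rw [h6, hc]
        have hTc : ¬ TT C k X a c := fun h => hT' ⟨c, hc, hUc, h⟩
        obtain ⟨l, hl, hl'⟩ := ih _ h X a hs (by
          intro l hl
          rcases Finset.mem_insert.1 hl with rfl | hl
          · exact hUc
          · exact hU l (Finset.mem_insert_of_mem hl))
        rcases Finset.mem_insert.1 hl with rfl | hl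
        · simp only [iff_true] at hl'
          exact absurd hl' hTc
        · exact ⟨l, Finset.mem_insert_of_mem hl, hl'⟩
      · exact ⟨_, Finset.mem_insert_self _ _, by simp [hT]⟩
    | disjR Δ g c hg hc h =>
      obtain ⟨X', a', g1, g2, g3, g4⟩ := hmove c
      apply g4
      obtain ⟨l, hl, hl'⟩ := ih _ h X' a' g1 (by
        intro l hl
        rcases Finset.mem_insert.1 hl with rfl | hl
        · exact g3
        · exact g2 l (Finset.mem_insert_of_mem hl))
      rcases Finset.mem_insert.1 hl with rfl | hl
      · refine ⟨_, Finset.mem_insert_self _ _, ?_⟩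
        simp only [iff_true] at hl' ⊢
        rw [TT, T_disj C _ _ g hg]
        exact ⟨c, hc, g3, hl'⟩
      · exact ⟨l, Finset.mem_insert_of_mem hl, hl'⟩
    | disjL Δ g hg h =>
      by_cases hT : TT C k X a (Sum.inr g)
      · have hT' := hT
        rw [TT, T_disj C _ _ g hg] at hT'
        obtain ⟨c, hc, hUc, hTc⟩ := hT'
        obtain ⟨l, hl, hl'⟩ := ih _ (h c hc) X a hs (by
          intro l hl
          rcases Finset.mem_insert.1 hl with rfl | hl
          · exact hUc
          · exact hU l (Finset.mem_insert_of_mem hl))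
        rcases Finset.mem_insert.1 hl with rfl | hl
        · simp only [Bool.false_eq_true, iff_false] at hl'
          exact absurd hTc hl'
        · exact ⟨l, Finset.mem_insert_of_mem hl, hl'⟩
      · exact ⟨_, Finset.mem_insert_self _ _, by simp [hT]⟩
    | modOne g g' r r' hg hg' hmult hne =>
      by_cases h : TT C k X a (Sum.inr g)
      · refine ⟨(Sum.inr g', false), by simp, ?_⟩
        simp only [Bool.false_eq_true, iff_false]
        intro h'
        rw [TT_mod hg] at h
        rw [TT_mod hg'] at h'
        simp only [hmult] at h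
        exact hne (h.symm.trans h')
      · exact ⟨(Sum.inr g, false), by simp, by simp [h]⟩
    | modAll G hG hmult =>
      refine ⟨(Sum.inr (G (∑ c, ind C k X a c * C.mult (G 0) c)), true), ?_, ?_⟩
      · exact Finset.mem_image.2 ⟨_, Finset.mem_univ _, rfl⟩
      · simp only [iff_true]
        rw [TT_mod (hG _)]
        simp only [hmult]
    | modNil g hg hmult =>
      refine ⟨(Sum.inr g, true), by simp, ?_⟩
      simp only [iff_true]
      rw [TT_mod hg]
      simp [hmult]
    | modAdd g g' c r s s' β β' hg hg' hmult hs' =>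
      have hUc : Unt k X c := hU (c, !β) (by simp)
      have hsum : ∑ d, ind (p := p) C k X a d * C.mult g d =
          (∑ d, ind (p := p) C k X a d * C.mult g' d) + ind C k X a c * r := by
        simp only [hmult, mul_add, Finset.sum_add_distrib, mul_ite, mul_zero,
          Finset.sum_ite_eq', Finset.mem_univ, if_true]
      by_contra hcon
      push Not at hcon
      have h1 := hcon (c, !β) (by simp)
      have h2 := hcon (Sum.inr g, !β') (by simp)
      have h3 := hcon (Sum.inr g', β') (by simp)
      have h4 : ind (p := p) C k X a c * r = if β = true then (r : ZMod p) else 0 := by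
        rw [ind_eq hUc]
        cases β
        · have : ¬ TT C k X a c := by simpa using h1
          simp [this]
        · have : TT C k X a c := by simpa using h1
          simp [this]
      have h5 : TT C k X a (Sum.inr g) ↔ TT C k X a (Sum.inr g') := by
        rw [TT_mod hg, TT_mod hg', hsum, h4, hs']
        exact add_left_inj _
      cases β' <;> simp only [Bool.not_false, Bool.not_true, Bool.false_eq_true, iff_false,
        iff_true, ne_eq, not_not] at h2 h3 <;> tauto
    | modCong Δ g g' r M hg hg' hM hM' hprem =>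
      by_contra hcon
      have hcon0 := hcon
      push Not at hcon
      have h2 := hcon (Sum.inr g, false) (by simp)
      have h3 := hcon (Sum.inr g', true) (by simp)
      simp only [Bool.false_eq_true] at h2
      have h2' : TT C k X a (Sum.inr g) := by tauto
      have h3' : ¬ TT C k X a (Sum.inr g') := by tauto
      rw [TT_mod hg] at h2'
      rw [TT_mod hg'] at h3'
      apply h3'
      rw [← h2']
      let Γ₁ : Sequent V 𝒢 := insert (Sum.inr g, false) (insert (Sum.inr g', true) Δ)
      have hΔΓ : ∀ l ∈ Δ, l ∈ Γ₁ :=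
        fun l hl => Finset.mem_insert_of_mem (Finset.mem_insert_of_mem hl)
      -- forced truth
      let 𝒟 : Node V 𝒢 → Prop := fun c => ∃ E : Finset A, E.card < k ∧ Disjoint E X ∧
        ∀ σ : Perm A, Perm.sign σ = 1 → (∀ w ∈ W, σ w = w) → (∀ w ∈ E, σ w = w) →
          Unt k (X.image σ) c → TT C k (X.image σ) (fun v => a (σ⁻¹ • v)) c
      have hD3 : ∀ c, Unt k X c → (𝒟 c ↔ TT C k X a c) := by
        intro c hc
        constructor
        · rintro ⟨E, _, _, h⟩
          have e1 : X.image (1 : Perm A) = X := by ext w; simp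
          have h5 := h 1 Perm.sign_one (fun _ _ => rfl) (fun _ _ => rfl) (by rw [e1]; exact hc)
          rw [e1] at h5
          simpa using h5
        · intro hT
          obtain ⟨S', e1, e2, e3⟩ := hc
          refine ⟨S', e1, e2, ?_⟩
          intro σ s1 s2 s3 _
          have h5 := TT_mv hC k X a σ c
          rw [e3.fix σ s1 s3] at h5
          exact h5.2 hT
      have hD1' : ∀ g₁ : Perm A, Perm.sign g₁ = 1 → (∀ y, y ∉ X → g₁ y = y) →
          X.image g₁ = X → (fun v => a (g₁⁻¹ • v)) = a → ∀ c, 𝒟 c → 𝒟 (g₁ • c) := by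
        intro g₁ k1 k2 k3 k4 c ⟨E, e1, e2, h⟩
        refine ⟨E, e1, e2, ?_⟩
        intro σ s1 s2 s3 hUσ
        have hfixE : ∀ w, w ∈ W ∨ w ∈ E → g₁ w = w := by
          rintro w (hw | hw)
          · exact k2 w (Finset.disjoint_left.1 hWX hw)
          · exact k2 w (Finset.disjoint_left.1 e2 hw)
        have hρ : ∀ w, w ∈ W ∨ w ∈ E → (g₁⁻¹ * σ * g₁) w = w := by
          intro w hw
          rw [Perm.mul_apply, Perm.mul_apply, hfixE w hw]
          have : σ w = w := by
            rcases hw with hw | hw
            · exact s2 w hw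
            · exact s3 w hw
          rw [this, Perm.inv_eq_iff_eq]
          exact (hfixE w hw).symm
        have himρ : X.image (g₁⁻¹ * σ * g₁ : Perm A) = (X.image σ).image (g₁⁻¹ : Perm A) := by
          conv_rhs => rw [← k3]
          rw [Finset.image_image, Finset.image_image]
          rfl
        have hUρ : Unt k (X.image (g₁⁻¹ * σ * g₁ : Perm A)) c := by
          rw [himρ]
          have := (unt_mv k (X.image σ) g₁⁻¹ (g₁ • c)).2 hUσ
          rwa [inv_smul_smul] at this
        have h5 := h (g₁⁻¹ * σ * g₁) (by simp [k1, s1]) (fun w hw => hρ w (Or.inl hw))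
          (fun w hw => hρ w (Or.inr hw)) hUρ
        have h6 := (TT_mv hC k (X.image (g₁⁻¹ * σ * g₁ : Perm A))
          (fun v => a ((g₁⁻¹ * σ * g₁)⁻¹ • v)) g₁ c).2 h5
        have e4 : (X.image (g₁⁻¹ * σ * g₁ : Perm A)).image g₁ = X.image σ := by
          rw [himρ]
          have := image_inv_image (X.image σ) g₁⁻¹
          rwa [inv_inv] at this
        have e5 : (fun v => a ((g₁⁻¹ * σ * g₁)⁻¹ • g₁⁻¹ • v)) = fun v => a (σ⁻¹ • v) := by
          funext v
          rw [← mul_smul]
          have : (g₁⁻¹ * σ * g₁)⁻¹ * g₁⁻¹ = g₁⁻¹ * σ⁻¹ := by group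
          rw [this, mul_smul]
          exact congrFun k4 (σ⁻¹ • v)
        rw [e4, e5] at h6
        exact h6
      have hD1 : ∀ c, 𝒟 (g₀ • c) ↔ 𝒟 c := by
        intro c
        constructor
        · intro h
          have h5 := hD1' g₀⁻¹ (by simp [hsign])
            (fun y hy => by rw [Perm.inv_eq_iff_eq]; exact (hout y hy).symm)
            (by
              conv_lhs => rw [← himg]
              exact image_inv_image X g₀)
            (by funext v; rw [inv_inv]; exact propext (hainv v)) (g₀ • c) h
          rwa [inv_smul_smul] at h5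
        · exact hD1' g₀ hsign hout himg hainv' c
      have hD2 : ∀ c d : Node V 𝒢, (∀ X' a', 𝒮 X' a' → (∀ l ∈ Γ₁, Unt k X' l.1) →
          (¬ ∃ l ∈ Γ₁, (TT C k X' a' l.1 ↔ l.2 = true)) → Unt k X' c → Unt k X' d →
          TT C k X' a' c → TT C k X' a' d) → 𝒟 c → 𝒟 d := by
        intro c d himp ⟨E, e1, e2, h⟩
        refine ⟨E, e1, e2, ?_⟩
        rintro σ s1 s2 s3 ⟨Sd, d1, d2, d3⟩
        obtain ⟨Sc, c1, c2⟩ := hsm c
        have hWσ : Disjoint W (X.image σ) := by
          rw [Finset.disjoint_left]
          intro w hw hwX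
          obtain ⟨y, hy, hyw⟩ := Finset.mem_image.1 hwX
          rw [← s2 w hw] at hyw
          rw [σ.injective hyw] at hy
          exact Finset.disjoint_left.1 hWX hw hy
        have hEσ : Disjoint E (X.image σ) := by
          rw [Finset.disjoint_left]
          intro w hw hwX
          obtain ⟨y, hy, hyw⟩ := Finset.mem_image.1 hwX
          rw [← s3 w hw] at hyw
          rw [σ.injective hyw] at hy
          exact Finset.disjoint_left.1 e2 hw hy
        have hcard1 := Finset.card_union_le W E
        have hcard2 := Finset.card_union_le (W ∪ E) Sd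
        have hXσ : (X.image σ).card = X.card := Finset.card_image_of_injective _ σ.injective
        obtain ⟨τ, t1, t2, t3, t4⟩ := move_perm (W ∪ E ∪ Sd) Sc (X.image σ)
          (Finset.disjoint_union_left.2 ⟨Finset.disjoint_union_left.2 ⟨hWσ, hEσ⟩, d2⟩)
          (by omega) (by omega)
        have himτ : X.image (τ * σ) = (X.image σ).image τ := by
          rw [Finset.image_image]; rfl
        have haτ : (fun v => a ((τ * σ)⁻¹ • v)) = fun v => a (σ⁻¹ • τ⁻¹ • v) := by
          funext v
          rw [← mul_smul, mul_inv_rev]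
        have hfW : ∀ w ∈ W, (τ * σ) w = w := by
          intro w hw
          rw [Perm.mul_apply, s2 w hw, t2 w (by simp [hw])]
        have hsignτσ : Perm.sign (τ * σ) = 1 := by rw [map_mul, t1, s1, mul_one]
        have hUc : Unt k (X.image (τ * σ)) c := ⟨Sc, c1, by rw [himτ]; exact t4, c2⟩
        have hUd : Unt k (X.image (τ * σ)) d := ⟨Sd, d1, by
          rw [himτ]; exact (Finset.disjoint_union_left.1 t3).2, d3⟩
        have hTc := h (τ * σ) hsignτσ hfW (by
          intro w hw
          rw [Perm.mul_apply, s3 w hw, t2 w (by simp [hw])]) hUc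
        have hTd := himp _ _ (hN.move X a hs (τ * σ)) (hUτ _ hsignτσ hfW) (by
          rintro ⟨l, hl, hl'⟩
          exact hcon0 ⟨l, hl, (hTτ _ hsignτσ hfW l hl).symm.trans hl'⟩) hUc hUd hTc
        have h7 := TT_mv hC k (X.image σ) (fun v => a (σ⁻¹ • v)) τ d
        rw [d3.fix τ t1 (fun y hy => t2 y (by simp [hy]))] at h7
        rw [himτ, haτ] at hTd
        exact h7.1 hTd
      -- equivalent nodes are forced simultaneously
      have hDM : ∀ c c', M c c' ≠ 0 → (𝒟 c ↔ 𝒟 c') := by
        intro c c' hM0
        obtain ⟨p1, p2⟩ := hprem c c' hM0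
        constructor
        · apply hD2 c c'
          intro X' a' hs' hU' hno hUc hUc' hTc
          obtain ⟨l, hl, hl'⟩ := ih _ p1 X' a' hs' (by
            intro l hl
            rcases Finset.mem_insert.1 hl with rfl | hl
            · exact hUc
            rcases Finset.mem_insert.1 hl with rfl | hl
            · exact hUc'
            · exact hU' l (hΔΓ l hl))
          rcases Finset.mem_insert.1 hl with rfl | hl
          · simp [hTc] at hl'
          rcases Finset.mem_insert.1 hl with rfl | hl
          · simpa using hl'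
          · exact absurd ⟨l, hΔΓ l hl, hl'⟩ hno
        · apply hD2 c' c
          intro X' a' hs' hU' hno hUc' hUc hTc'
          obtain ⟨l, hl, hl'⟩ := ih _ p2 X' a' hs' (by
            intro l hl
            rcases Finset.mem_insert.1 hl with rfl | hl
            · exact hUc
            rcases Finset.mem_insert.1 hl with rfl | hl
            · exact hUc'
            · exact hU' l (hΔΓ l hl))
          rcases Finset.mem_insert.1 hl with rfl | hl
          · simpa using hl'
          rcases Finset.mem_insert.1 hl with rfl | hl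
          · simp [hTc'] at hl'
          · exact absurd ⟨l, hΔΓ l hl, hl'⟩ hno
      -- replacing the value by forced truth does not change an invariant sum
      have hrep : ∀ h : 𝒢, g₀ • h = h →
          ∑ c, ind (p := p) C k X a c * C.mult h c =
            ∑ c, (if 𝒟 c then (1 : ZMod p) else 0) * C.mult h c := by
        intro h hh
        rw [← sub_eq_zero, ← Finset.sum_sub_distrib]
        apply sum_eq_zero_of_perm' (MulAction.toPerm g₀ : Perm (Node V 𝒢))
        · intro c
          simp only [MulAction.toPerm_apply, hind, hmultinv h hh, hD1]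
        · intro c i hi hfix
          rw [hpowperm] at hfix
          have hUc := hUfix c i hi hfix
          rw [ind_eq hUc]
          simp only [hD3 c hUc, sub_self]
      have hfg : g₀ • g = g := by
        have := hfixU _ (hU (Sum.inr g, false) (by simp))
        exact Sum.inr.inj (this : (Sum.inr (g₀ • g) : Node V 𝒢) = Sum.inr g)
      have hfg' : g₀ • g' = g' := by
        have := hfixU _ (hU (Sum.inr g', true) (by simp))
        exact Sum.inr.inj (this : (Sum.inr (g₀ • g') : Node V 𝒢) = Sum.inr g')
      rw [hrep g hfg, hrep g' hfg']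
      simp only [hM, hM', Finset.mul_sum]
      rw [Finset.sum_comm]
      apply Finset.sum_congr rfl
      intro c _
      apply Finset.sum_congr rfl
      intro c' _
      by_cases hM0 : M c c' = 0
      · simp [hM0]
      · simp only [hDM c c' hM0]
    | modSum g g' r M β hg hg' hτ hM hM' =>
      have hsum : ∑ c, ind (p := p) C k X a c * C.mult g c =
          ∑ c, ind (p := p) C k X a c * C.mult g' c := by
        have hfg' : g₀ • g' = g' := by
          have := hfixU _ (hU (Sum.inr g', β) (by simp))
          exact Sum.inr.inj (this : (Sum.inr (g₀ • g') : Node V 𝒢) = Sum.inr g')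
        -- the value of a sum gate, also if it is touched
        let Vl : 𝒢 → ZMod p := fun h => ∑ c, ind (p := p) C k X a c * C.mult h c
        let dN : Node V 𝒢 → ZMod p := fun n => match n with
          | Sum.inl v => ind (p := p) C k X a (Sum.inl v)
          | Sum.inr h => match C.kind h with
            | Kind.mod i => if Vl h = i then 1 else 0
            | _ => ind (p := p) C k X a (Sum.inr h)
        have hVinv : ∀ h, Vl (g₀ • h) = Vl h := by
          intro h
          symm
          apply Fintype.sum_equiv (MulAction.toPerm g₀)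
          intro c
          simp only [MulAction.toPerm_apply, hind, (hC g₀ h).2]
        have hdinv : ∀ n, dN (g₀ • n) = dN n := by
          intro n
          rcases n with v | h
          · exact hind (Sum.inl v)
          · show (match C.kind (g₀ • h) with
              | Kind.mod i => if Vl (g₀ • h) = i then (1 : ZMod p) else 0
              | _ => ind (p := p) C k X a (Sum.inr (g₀ • h))) = match C.kind h with
              | Kind.mod i => if Vl h = i then (1 : ZMod p) else 0
              | _ => ind (p := p) C k X a (Sum.inr h)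
            rw [(hC g₀ h).1, hVinv]
            cases C.kind h with
            | neg => exact hind (Sum.inr h)
            | disj => exact hind (Sum.inr h)
            | mod i => rfl
        have hdfix : ∀ n, Unt k X n → dN n = ind (p := p) C k X a n := by
          intro n hn
          rcases n with v | h
          · rfl
          · cases hkind : C.kind h with
            | neg => simp only [dN, hkind]
            | disj => simp only [dN, hkind]
            | mod i =>
              simp only [dN, hkind]
              rw [ind_eq hn]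
              have := TT_mod (C := C) (k := k) (X := X) (a := a) hkind
              simp only [this]
              rfl
        have e1 : ∑ c, ind (p := p) C k X a c * C.mult g' c = ∑ c, dN c * C.mult g' c := by
          rw [← sub_eq_zero, ← Finset.sum_sub_distrib]
          apply sum_eq_zero_of_perm' (MulAction.toPerm g₀ : Perm (Node V 𝒢))
          · intro c
            simp only [MulAction.toPerm_apply, hind, hmultinv g' hfg', hdinv]
          · intro c i hi hfix
            rw [hpowperm] at hfix
            rw [hdfix c (hUfix c i hi hfix), sub_self]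
        rw [e1]
        simp only [hM, hM', Finset.mul_sum]
        rw [Finset.sum_comm]
        conv_rhs => rw [Finset.sum_comm]
        apply Finset.sum_congr rfl
        intro τ _
        by_cases hM0 : M τ = 0
        · simp [hM0]
        have hτ0 := hτ τ hM0
        have hlhs : (∑ c, ind (p := p) C k X a c *
            ((M τ : ZMod p) * (C.mult (τ 0) c : ZMod p))) = (M τ : ZMod p) * Vl (τ 0) := by
          simp only [Vl]
          rw [Finset.mul_sum]
          apply Finset.sum_congr rfl
          intro c _
          ring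
        have hrhs : (∑ c, ∑ i : ZMod p, dN c *
            ((M τ : ZMod p) * if c = Sum.inr (τ i) then i else 0)) =
            (M τ : ZMod p) * ∑ i : ZMod p, dN (Sum.inr (τ i)) * i := by
          rw [Finset.sum_comm, Finset.mul_sum]
          apply Finset.sum_congr rfl
          intro i _
          simp only [mul_ite, mul_zero, Finset.sum_ite_eq', Finset.mem_univ, if_true]
          ring
        rw [hlhs, hrhs]
        have e2 : ∀ i, dN (Sum.inr (τ i)) = if Vl (τ 0) = i then 1 else 0 := by
          intro i
          have e3 : Vl (τ i) = Vl (τ 0) := by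
            simp only [Vl, (hτ0 i).2]
          simp only [dN, (hτ0 i).1, e3]
        simp only [e2, ite_mul, one_mul, zero_mul, Finset.sum_ite_eq, Finset.mem_univ, if_true]
      by_cases h : TT C k X a (Sum.inr g)
      · have h' : TT C k X a (Sum.inr g') := by
          rw [TT_mod hg] at h
          rw [TT_mod hg', ← hsum, h]
        cases β
        · exact ⟨(Sum.inr g, !false), by simp, by simp [h]⟩
        · exact ⟨(Sum.inr g', true), by simp, by simp [h']⟩
      · have h' : ¬ TT C k X a (Sum.inr g') := by
          rw [TT_mod hg] at h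
          rw [TT_mod hg', ← hsum]; exact h
        cases β
        · exact ⟨(Sum.inr g', false), by simp, by simp [h']⟩
        · exact ⟨(Sum.inr g, !true), by simp, by simp [h]⟩
/-- **General theorem.** -/
theorem lower_boundM [NeZero p] {C : Circuit p V 𝒢} (hC : C.Symmetric A)
    (hN : NearM A 𝒜 p k x 𝒮)
    (hcard : x + (b + 3) * k ≤ Fintype.card A) (hk : 2 ≤ k) (hb : 2 ≤ b)
    (hD : Der C 𝒜 b ∅) : (Fintype.card A).choose k ≤ 4 * (Fintype.card 𝒢) ^ 3 := by
  by_contra hcon
  push Not at hcon
  have h3k : 3 * k ≤ Fintype.card A := by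
    have : 3 * k ≤ (b + 3) * k := Nat.mul_le_mul_right _ (by omega)
    omega
  have hsm : ∀ q : Node V 𝒢, ∃ S : Finset A, S.card < k ∧ Sup S q := by
    intro q
    rcases q with v | g
    · obtain ⟨S, h1, h2⟩ := hN.var v
      refine ⟨S, h1, ?_⟩
      intro y z w hy hz hw g1 g2 g3
      show Sum.inl (cyc y z w • v) = _
      rw [h2 y z w hy hz hw g1 g2 g3]
    · have hidx : (MulAction.stabilizer (Perm A) g).index ≤ Fintype.card 𝒢 := by
        rw [MulAction.index_stabilizer, ← Nat.card_coe_set_eq, ← Nat.card_eq_fintype_card]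
        exact Nat.card_le_card_of_injective _ Subtype.val_injective
      obtain ⟨d, hd⟩ := Pool.Agent.H694R2.SymIdx.big_class (MulAction.stabilizer (Perm A) g) k (by omega) h3k
        (lt_of_le_of_lt (Nat.mul_le_mul_left _ (Nat.pow_le_pow_left hidx 3)) hcon)
      refine ⟨(ClF (MulAction.stabilizer (Perm A) g) d)ᶜ, ?_, ?_⟩
      · rw [Finset.card_compl]; omega
      · intro x y z hx hy hz h1 h2 h3
        simp only [Finset.mem_compl, not_not, mem_ClF] at hx hy hz
        have h4 := (good_of_cl hx hy hz h1 h2 h3).2.2.2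
        rw [MulAction.mem_stabilizer_iff] at h4
        show Sum.inr ((cyc x y z) • g) = _
        rw [h4]
  obtain ⟨X, a, hs⟩ := hN.ne
  obtain ⟨l, hl, _⟩ := soundM hC hN hcard hk hb hsm ∅ hD X a hs (by simp)
  simp at hl

end sound

end Pool.Agent.W956.SMP
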