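import Mathlib

/-! # Permutations of a set whose powers have large invariant sets -/

namespace Pool.Agent.W956.SMP

open Equiv

variable {A : Type} [DecidableEq A] [Fintype A]

/-- arithmetic: `n₀` is large if a suitable number divides `n₀ * (2 * i)` -/
theorem arith {m k N n₀ i : ℕ} (hm : m ≠ 0) (hi : ¬ m ∣ i) (hn₀ : n₀ ≠ 0)
    (hdiv : ∀ q : ℕ, q.Prime → q ∣ m → ∃ e, k ≤ q ^ e ∧ m * q ^ e ∣ N) (h : N ∣ n₀ * (2 * i)) :
    k ≤ n₀ := by
  have hi0 : i ≠ 0 := by rintro rfl; exact hi (dvd_zero m)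
  obtain ⟨q, hq, hlt⟩ : ∃ q : ℕ, q.Prime ∧ i.factorization q < m.factorization q := by
    by_contra hcon
    push Not at hcon
    exact hi ((Nat.factorization_prime_le_iff_dvd hm hi0).1 hcon)
  have hqm : q ∣ m := by
    by_contra hcon
    rw [Nat.factorization_eq_zero_of_not_dvd hcon] at hlt
    omega
  obtain ⟨e, hke, he⟩ := hdiv q hq hqm
  have h1 : m * q ^ e ∣ n₀ * (2 * i) := he.trans h
  have hqe : q ^ e ≠ 0 := pow_ne_zero _ hq.ne_zero
  have h2 := (Nat.factorization_le_iff_dvd (mul_ne_zero hm hqe)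
    (mul_ne_zero hn₀ (mul_ne_zero two_ne_zero hi0))).2 h1 q
  rw [Nat.factorization_mul hm hqe, Nat.factorization_mul hn₀ (mul_ne_zero two_ne_zero hi0),
    Nat.factorization_mul two_ne_zero hi0, Nat.factorization_pow] at h2
  simp only [Finsupp.coe_add, Pi.add_apply, Finsupp.coe_smul, Pi.smul_apply, smul_eq_mul,
    hq.factorization_self, mul_one] at h2
  have h3 : (Nat.factorization 2) q ≤ 1 := by
    rw [Nat.Prime.factorization Nat.prime_two, Finsupp.single_apply]
    split <;> omega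
  have h4 : e ≤ n₀.factorization q := by omega
  have h5 : q ^ e ∣ n₀ := (hq.pow_dvd_iff_le_factorization hn₀).2 h4
  exact hke.trans (Nat.le_of_dvd (Nat.pos_of_ne_zero hn₀) h5)

theorem exists_shiftM (X : Finset A) {m k : ℕ} (hm : m ≠ 0)
    (hdiv : ∀ q : ℕ, q.Prime → q ∣ m → ∃ e, k ≤ q ^ e ∧ m * q ^ e ∣ X.card) :
    ∃ g : Perm A, Perm.sign g = 1 ∧ (∀ y, y ∉ X → g y = y) ∧ ∀ i : ℕ, ¬ m ∣ i →
      ∀ D ⊆ X, (∀ y ∈ D, (g ^ i) y ∈ D) → D.Nonempty → k ≤ D.card := by
  classical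
  rcases X.eq_empty_or_nonempty with rfl | hX
  · refine ⟨1, Perm.sign_one, fun _ _ => rfl, ?_⟩
    intro i _ D hD _ ⟨y, hy⟩
    exact absurd (hD hy) (by simp)
  obtain ⟨N, hN⟩ : ∃ N, N = X.card := ⟨_, rfl⟩
  have hN0 : N ≠ 0 := by
    rw [hN]; exact (Finset.card_pos.2 hX).ne'
  haveI : NeZero N := ⟨hN0⟩
  let φ : {x // x ∈ X} ≃ ZMod N := Fintype.equivOfCardEq (by
    rw [Fintype.card_coe, ZMod.card, hN])
  let g1' : Perm {x // x ∈ X} := (φ.trans (Equiv.addRight 1)).trans φ.symm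
  let g1 : Perm A := Perm.ofSubtype g1'
  have hg1 : ∀ y (hy : y ∈ X), g1 y = (φ.symm (φ ⟨y, hy⟩ + 1)).1 := by
    intro y hy
    show Perm.ofSubtype g1' y = _
    rw [Perm.ofSubtype_apply_of_mem _ hy]
    rfl
  have hout1 : ∀ y, y ∉ X → g1 y = y := fun y hy => Perm.ofSubtype_apply_of_not_mem _ hy
  have hpow : ∀ (n : ℕ) (z : ZMod N), (g1 ^ n) (φ.symm z).1 = (φ.symm (z + n)).1 := by
    intro n
    induction n with
    | zero => intro z; simp
    | succ n ih =>
      intro z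
      rw [pow_succ, Perm.mul_apply, hg1 _ (φ.symm z).2]
      have : φ ⟨(φ.symm z).1, (φ.symm z).2⟩ = z := by
        rw [Subtype.coe_eta, Equiv.apply_symm_apply]
      rw [this, ih]
      have e : z + 1 + (n : ZMod N) = z + ((n + 1 : ℕ) : ZMod N) := by
        push_cast; ring
      rw [e]
  refine ⟨g1 ^ 2, ?_, ?_, ?_⟩
  · rw [map_pow]; exact Int.units_sq _
  · intro y hy
    rw [pow_two, Perm.mul_apply, hout1 y hy, hout1 y hy]
  intro i hi D hD hinv ⟨y₀, hy₀⟩
  set c : ZMod N := ((2 * i : ℕ) : ZMod N) with hc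
  have hstep : ∀ z : ZMod N, (φ.symm z).1 ∈ D → (φ.symm (z + c)).1 ∈ D := by
    intro z hz
    have := hinv _ hz
    rwa [← pow_mul, hpow] at this
  have hmem : ∀ n : ℕ, (φ.symm (φ ⟨y₀, hD hy₀⟩ + n • c)).1 ∈ D := by
    intro n
    induction n with
    | zero => simpa using hy₀
    | succ n ih =>
      have := hstep _ ih
      rwa [add_assoc, ← succ_nsmul] at this
  have h0 : addOrderOf c ≠ 0 := (addOrderOf_pos c).ne'
  have hle : addOrderOf c ≤ D.card := by
    rw [← Finset.card_range (addOrderOf c)]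
    apply Finset.card_le_card_of_injOn (fun n => (φ.symm (φ ⟨y₀, hD hy₀⟩ + n • c)).1)
    · intro n _
      exact hmem n
    · intro n hn n' hn' heq
      simp only at heq
      have h1 := φ.symm.injective (Subtype.ext heq)
      have h2 := add_left_cancel h1
      simp only [Finset.coe_range, Set.mem_Iio] at hn hn'
      exact nsmul_injOn_Iio_addOrderOf hn hn' h2
  refine le_trans ?_ hle
  apply arith hm hi h0 (N := N) (by rw [hN]; exact hdiv)
  have h1 := addOrderOf_nsmul_eq_zero c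
  rw [hc, ← Nat.cast_smul_eq_nsmul (ZMod N), smul_eq_mul, ← Nat.cast_mul,
    ZMod.natCast_eq_zero_iff] at h1
  rw [hc]; exact h1

end Pool.Agent.W956.SMP
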