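import Mathlib
import Pool.Agent.H694R2.SymGap
import Pool.Agent.W956.SMP.ModM
import Pool.Agent.W956.SMP.Shift

/-! # Near-models of first-order principles with two kinds of points, any modulus -/

namespace Pool.Agent.W956.SMP

open Equiv Pool.Agent.H522R2.SmallIndex Pool.Agent.H694R2.SymMod
open Pool.Agent.H694R2.SymGap (Atom Schema clauses Models)

variable {R : Type} {ar : R → ℕ} {A B M : Type}

/-- Renaming the elements of `A` in an atom over `A ⊕ B`. -/
instance : MulAction (Perm A) (Atom ar (A ⊕ B)) where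
  smul σ v := v.map (Sum.map σ id)
  one_smul := by
    rintro ⟨r, w⟩
    show (⟨r, Sum.map (1 : Perm A) id ∘ w⟩ : Atom ar (A ⊕ B)) = ⟨r, w⟩
    congr 1
    funext i
    rcases h : w i with x | y <;> simp [h]
  mul_smul := by
    rintro σ τ ⟨r, w⟩
    show (⟨r, Sum.map (σ * τ : Perm A) id ∘ w⟩ : Atom ar (A ⊕ B)) =
      ⟨r, Sum.map σ id ∘ (Sum.map τ id ∘ w)⟩
    congr 1
    funext i
    rcases h : w i with x | y <;> simp [h]

theorem smul_def' (σ : Perm A) (v : Atom ar (A ⊕ B)) : σ • v = v.map (Sum.map σ id) := rfl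

theorem map_map' {C D E : Type} (f : C → D) (g : D → E) (v : Atom ar C) :
    (v.map f).map g = v.map (g ∘ f) := rfl

theorem map_congr' {C D : Type} {f g : C → D} (v : Atom ar C) (h : ∀ i, f (v.2 i) = g (v.2 i)) :
    v.map f = v.map g := by
  obtain ⟨r, w⟩ := v
  show (⟨r, f ∘ w⟩ : Atom ar D) = ⟨r, g ∘ w⟩
  congr 1
  funext i
  exact h i

theorem map_inj' {C D : Type} (j : C ↪ D) {v w : Atom ar C} (h : v.map j = w.map j) : v = w := by
  obtain ⟨r, v⟩ := v
  obtain ⟨s, w⟩ := w
  have h' : (⟨r, j ∘ v⟩ : Atom ar D) = ⟨s, j ∘ w⟩ := h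
  obtain ⟨rfl, h2⟩ := Sigma.mk.inj_iff.1 h'
  have h3 := eq_of_heq h2
  congr 1
  funext i
  exact j.injective (congrFun h3 i)

/-- renaming of the points as an embedding -/
def renE (σ : Perm A) : A ⊕ B ↪ A ⊕ B := (Equiv.sumCongr σ (Equiv.refl B)).toEmbedding

theorem renE_inl (σ : Perm A) (x : A) : renE (B := B) σ (Sum.inl x) = Sum.inl (σ x) := rfl

theorem renE_inr (σ : Perm A) (y : B) : renE (B := B) σ (Sum.inr y) = Sum.inr y := rfl

theorem renE_eq (σ : Perm A) (z : A ⊕ B) : renE σ z = Sum.map σ id z := by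
  rcases z with x | y <;> rfl

variable [DecidableEq A] [DecidableEq B]

/-- the points of `A` occurring in an atom -/
def supA (v : Atom ar (A ⊕ B)) : Finset A := (Finset.univ.image v.2).toLeft

theorem mem_supA (v : Atom ar (A ⊕ B)) (x : A) : x ∈ supA v ↔ ∃ i, v.2 i = Sum.inl x := by
  unfold supA
  rw [Finset.mem_toLeft, Finset.mem_image]
  simp

theorem card_supA (v : Atom ar (A ⊕ B)) : (supA v).card ≤ ar v.1 := by
  unfold supA
  refine Finset.card_toLeft_le.trans ?_
  refine Finset.card_image_le.trans ?_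
  simp

theorem sup_atom' (v : Atom ar (A ⊕ B)) : Sup (supA v) v := by
  intro x y z hx hy hz _ _ _
  rw [smul_def']
  conv_rhs => rw [show v = v.map id from rfl]
  apply map_congr'
  intro i
  rcases h : v.2 i with u | u
  · have hu : u ∈ supA v := (mem_supA v u).2 ⟨i, h⟩
    show Sum.inl (cyc x y z u) = Sum.inl u
    rw [cyc_apply_of_ne]
    · intro h; rw [h] at hu; exact hx hu
    · intro h; rw [h] at hu; exact hy hu
    · intro h; rw [h] at hu; exact hz hu
  · rfl

variable [Fintype A] [Fintype B] [Fintype M]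

/-- copies of the structure `I` on all points outside `X` -/
def StB (I : Atom ar M → Prop) (X : Finset A) (a : Atom ar (A ⊕ B) → Prop) : Prop :=
  ∃ j : M ↪ A ⊕ B, (∀ x, x ∈ X ↔ Sum.inl x ∉ Set.range j) ∧ (∀ y, Sum.inr y ∈ Set.range j) ∧
    ∀ v, a v ↔ ∃ w, v = w.map j ∧ I w

theorem card_StB {I : Atom ar M → Prop} {X : Finset A} {a : Atom ar (A ⊕ B) → Prop}
    (h : StB I X a) : X.card + Fintype.card M = Fintype.card A + Fintype.card B := by
  classical
  obtain ⟨j, hX, hB, _⟩ := h
  have h1 : Finset.univ.image j = Xᶜ.disjSum (Finset.univ : Finset B) := by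
    ext i
    rcases i with x | y
    · rw [Finset.inl_mem_disjSum, Finset.mem_compl, hX, not_not, Finset.mem_image]
      simp
    · rw [Finset.inr_mem_disjSum, Finset.mem_image]
      simpa using hB y
  have h2 := congrArg Finset.card h1
  rw [Finset.card_image_of_injective _ j.injective, Finset.card_univ, Finset.card_disjSum,
    Finset.card_univ, Finset.card_compl] at h2
  have h3 : X.card ≤ Fintype.card A := Finset.card_le_univ X
  omega

theorem unt_map {k : ℕ} (har : ∀ r, ar r < k) {X : Finset A} (j : M ↪ A ⊕ B)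
    (hX : ∀ x, x ∈ X ↔ Sum.inl x ∉ Set.range j) (w : Atom ar M) : Unt k X (w.map j) := by
  refine ⟨supA (w.map j), (card_supA _).trans_lt (har _), ?_, sup_atom' _⟩
  rw [Finset.disjoint_left]
  intro x hx
  rw [mem_supA] at hx
  obtain ⟨i, hi⟩ := hx
  rw [hX, not_not]
  exact ⟨w.2 i, hi⟩

theorem near_foM {m k x : ℕ} (hm : m ≠ 0) (I : Atom ar M → Prop) (Φ : Set (Schema ar))
    (hI : Models I Φ) (har : ∀ r, ar r < k) (hΦ : ∀ θ ∈ Φ, θ.m < k)
    (hxc : Fintype.card A + Fintype.card B = Fintype.card M + x)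
    (hxA : x ≤ Fintype.card A)
    (hdiv : ∀ q : ℕ, q.Prime → q ∣ m → ∃ e, k ≤ q ^ e ∧ m * q ^ e ∣ x) :
    NearM A (clauses Φ (A ⊕ B)) m k x (StB (A := A) (B := B) I) where
  card := fun X a h => by have := card_StB h; omega
  move := by
    rintro X a ⟨j, hX, hB, ha⟩ σ
    refine ⟨j.trans (renE σ), ?_, ?_, ?_⟩
    · intro y
      rw [Finset.mem_image]
      constructor
      · rintro ⟨z, hz, rfl⟩ ⟨u, hu⟩
        rw [Function.Embedding.trans_apply, ← renE_inl] at hu
        exact (hX z).1 hz ⟨u, (renE σ).injective hu⟩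
      · intro h
        refine ⟨σ⁻¹ y, (hX _).2 ?_, by simp⟩
        rintro ⟨u, hu⟩
        apply h
        refine ⟨u, ?_⟩
        rw [Function.Embedding.trans_apply, hu, renE_inl]
        simp
    · intro y
      obtain ⟨u, hu⟩ := hB y
      exact ⟨u, by rw [Function.Embedding.trans_apply, hu, renE_inr]⟩
    · intro v
      show a (σ⁻¹ • v) ↔ _
      rw [ha]
      have key : ∀ w : Atom ar M, w.map (j.trans (renE σ)) = σ • w.map j := by
        intro w
        rw [smul_def', map_map']
        apply map_congr'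
        intro i
        rw [Function.Embedding.trans_apply, renE_eq]
        rfl
      constructor
      · rintro ⟨w, hw, hIw⟩
        refine ⟨w, ?_, hIw⟩
        rw [key, ← hw, smul_inv_smul]
      · rintro ⟨w, hw, hIw⟩
        refine ⟨w, ?_, hIw⟩
        rw [hw, key, inv_smul_smul]
  var := fun v => ⟨supA v, (card_supA v).trans_lt (har _), sup_atom' v⟩
  ax := by
    rintro α ⟨θ, hθ, h, rfl⟩
    refine ⟨(Finset.univ.image h).toLeft, ?_, ?_⟩
    · refine lt_of_le_of_lt (Finset.card_toLeft_le.trans Finset.card_image_le) ?_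
      rw [Finset.card_univ, Fintype.card_fin]
      exact hΦ θ hθ
    rintro X a ⟨j, hX, hB, ha⟩ hdis
    have hrange : ∀ i, h i ∈ Set.range j := by
      intro i
      rcases hi : h i with u | u
      · by_contra hcon
        exact Finset.disjoint_left.1 hdis (Finset.mem_toLeft.2
          (Finset.mem_image.2 ⟨i, Finset.mem_univ _, hi⟩)) ((hX u).2 hcon)
      · exact hB u
    choose f hf using hrange
    have hfi : Function.Injective f := by
      intro u v huv
      apply h.injective
      rw [← hf u, ← hf v, huv]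
    have haw : ∀ w : Atom ar M, a (w.map j) ↔ I w := by
      intro w
      rw [ha]
      constructor
      · rintro ⟨w', hw', hI'⟩
        rw [map_inj' j hw']
        exact hI'
      · intro hw
        exact ⟨w, rfl, hw⟩
    obtain ⟨l, hl, hval⟩ := hI _ ⟨θ, hθ, ⟨f, hfi⟩, rfl⟩
    rcases hl with ⟨l', hl', rfl⟩ | ⟨l', hl', h', hh', rfl⟩
    · refine ⟨((l'.1.map f).map j, l'.2), Or.inl ⟨l', hl', ?_⟩, unt_map har j hX _, ?_⟩
      · rw [map_map']
        congr 1
        apply map_congr'
        intro i
        exact hf _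
      · rw [haw]; exact hval
    · refine ⟨((l'.1.map h').map j, l'.2), Or.inr ⟨l', hl', h'.trans j, ?_, rfl⟩,
        unt_map har j hX _, ?_⟩
      · intro i
        rw [Function.Embedding.trans_apply, hh' i]
        exact hf i
      · rw [haw]; exact hval
  shift := by
    intro X a h
    have hXc := card_StB h
    obtain ⟨j, hX, hB, ha⟩ := h
    have hXx : X.card = x := by omega
    obtain ⟨g, h1, h2, h3⟩ := exists_shiftM X (k := k) hm (by rw [hXx]; exact hdiv)
    refine ⟨g, h1, h2, ?_, h3⟩
    intro v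
    by_cases hv : ∀ i, v.2 i ∈ Set.range j
    · have hgv : g • v = v := by
        rw [smul_def']
        conv_rhs => rw [show v = v.map id from rfl]
        apply map_congr'
        intro i
        rcases hi : v.2 i with u | u
        · show Sum.inl (g u) = Sum.inl u
          rw [h2 u]
          rw [hX, not_not, ← hi]
          exact hv i
        · rfl
      rw [hgv]
    · push Not at hv
      obtain ⟨i, hi⟩ := hv
      have e1 : ¬ a v := by
        rw [ha]
        rintro ⟨w, rfl, _⟩
        exact hi ⟨w.2 i, rfl⟩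
      have e2 : ¬ a (g • v) := by
        rw [ha]
        rintro ⟨w, hw, _⟩
        rcases hu : v.2 i with u | u
        · rw [hu] at hi
          have huX : u ∈ X := (hX u).2 hi
          have hguX : g u ∈ X := by
            by_contra hgu
            have := h2 _ hgu
            rw [g.injective this] at hgu
            exact hgu huX
          apply (hX _).1 hguX
          have : supA (g • v) = supA (w.map j) := by rw [hw]
          have hmem : g u ∈ supA (g • v) := by
            rw [mem_supA]
            refine ⟨i, ?_⟩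
            show Sum.map g id (v.2 i) = _
            rw [hu]; rfl
          rw [this, mem_supA] at hmem
          obtain ⟨i', hi'⟩ := hmem
          exact ⟨w.2 i', hi'⟩
        · rw [hu] at hi
          exact hi (hB u)
      exact iff_of_false e2 e1
  ne := by
    classical
    obtain ⟨T, -, hT⟩ := Finset.exists_subset_card_eq (s := (Finset.univ : Finset A))
      (n := Fintype.card A - x) (by rw [Finset.card_univ]; omega)
    let φ : {z // z ∈ (Finset.univ : Finset M)} ≃
        {z // z ∈ T.disjSum (Finset.univ : Finset B)} :=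
      Finset.equivOfCardEq (by
        rw [Finset.card_disjSum, hT, Finset.card_univ, Finset.card_univ]; omega)
    let j : M ↪ A ⊕ B := ⟨fun z => (φ ⟨z, Finset.mem_univ z⟩).1, by
      intro u v huv
      exact congrArg Subtype.val (φ.injective (Subtype.ext huv))⟩
    refine ⟨Finset.univ.filter (fun x => Sum.inl x ∉ Set.range j),
      fun v => ∃ w, v = w.map j ∧ I w, j, by simp, ?_, fun _ => Iff.rfl⟩
    intro y
    refine ⟨(φ.symm ⟨Sum.inr y, by simp⟩).1, ?_⟩
    show (φ ⟨(φ.symm _).1, _⟩).1 = _
    rw [Subtype.coe_eta, Equiv.apply_symm_apply]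

/-- **Lower bound for first-order principles with a model of the right size.** -/
theorem fo_lower_bound {m k x b : ℕ} [NeZero m] (hb : 2 ≤ b) (hk : 2 ≤ k)
    (I : Atom ar M → Prop) (Φ : Set (Schema ar))
    (hI : Models I Φ) (har : ∀ r, ar r < k) (hΦ : ∀ θ ∈ Φ, θ.m < k)
    (hxc : Fintype.card A + Fintype.card B = Fintype.card M + x)
    (hroom : x + (b + 3) * k ≤ Fintype.card A)
    (hdiv : ∀ q : ℕ, q.Prime → q ∣ m → ∃ e, k ≤ q ^ e ∧ m * q ^ e ∣ x)
    {𝒢 : Type} [Fintype 𝒢] [DecidableEq 𝒢] [MulAction (Perm A) 𝒢]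
    [DecidableEq (Atom ar (A ⊕ B))] [Fintype (Atom ar (A ⊕ B))]
    (C : Circuit m (Atom ar (A ⊕ B)) 𝒢) (hC : C.Symmetric A)
    (hD : Der C (clauses Φ (A ⊕ B)) b ∅) :
    (Fintype.card A).choose k ≤ 4 * (Fintype.card 𝒢) ^ 3 :=
  lower_boundM hC (near_foM (A := A) (B := B) (NeZero.ne m) I Φ hI har hΦ hxc (by omega) hdiv)
    hroom hk hb hD

end Pool.Agent.W956.SMP
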