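import Mathlib
import Pool.Agent.W956.SMP.Fo

/-! # The functional pigeonhole principle as a first-order principle -/

namespace Pool.Agent.W956.SMP

open Equiv Pool.Agent.H694R2.SymMod
open Pool.Agent.H694R2.SymGap (Atom Schema clauses Models)

/-- The axioms of the functional pigeonhole principle with the set `H` of holes, for the unary
relation symbols `P_j` (`j ∈ H`), where `P_j(x)` says that the pigeon `x` sits in the hole `j`:
every pigeon sits in a hole, no pigeon sits in two holes, no two pigeons sit in the same hole, and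
every hole outside the set `D` is used. -/
def phpAxioms {H : Type} (D : Finset H) : Set (Schema (fun _ : H => 1)) :=
  {θ | θ = ⟨1, 0, {l | l.2 = true}, ∅⟩ ∨
    (∃ j j' : H, j ≠ j' ∧
      θ = ⟨1, 0, {(⟨j, fun _ => 0⟩, false), (⟨j', fun _ => 0⟩, false)}, ∅⟩) ∨
    (∃ j : H, θ = ⟨2, 0, {(⟨j, fun _ => 0⟩, false), (⟨j, fun _ => 1⟩, false)}, ∅⟩) ∨
    ∃ j : H, j ∉ D ∧ θ = ⟨0, 1, ∅, {(⟨j, fun _ => Sum.inr 0⟩, true)}⟩}

theorem models_php {H : Type} (D S : Finset H) (hDS : ∀ j, j ∉ D → j ∈ S) :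
    Models (ar := fun _ : H => 1) (M := {j // j ∈ S}) (fun v => (v.2 0).1 = v.1)
      (phpAxioms D) := by
  classical
  rintro α ⟨θ, (rfl | ⟨j, j', hjj, rfl⟩ | ⟨j, rfl⟩ | ⟨j, hj, rfl⟩), h, rfl⟩
  · exact ⟨_, Or.inl ⟨(⟨(h 0).1, fun _ => 0⟩, true), rfl, rfl⟩, iff_of_true rfl rfl⟩
  · by_cases h0 : (h 0).1 = j
    · refine ⟨_, Or.inl ⟨(⟨j', fun _ => 0⟩, false), Or.inr rfl, rfl⟩, iff_of_false ?_ (by simp)⟩
      intro h1
      exact hjj (h0.symm.trans h1)
    · exact ⟨_, Or.inl ⟨(⟨j, fun _ => 0⟩, false), Or.inl rfl, rfl⟩, iff_of_false h0 (by simp)⟩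
  · by_cases h0 : (h 0).1 = j
    · refine ⟨_, Or.inl ⟨(⟨j, fun _ => 1⟩, false), Or.inr rfl, rfl⟩, iff_of_false ?_ (by simp)⟩
      intro h1
      have h2 : h 0 = h 1 := Subtype.ext (h0.trans (h1 : (h 1).1 = j).symm)
      have h3 : (0 : ℕ) = 1 := congrArg Fin.val (h.injective h2)
      exact absurd h3 (by omega)
    · exact ⟨_, Or.inl ⟨(⟨j, fun _ => 0⟩, false), Or.inl rfl, rfl⟩, iff_of_false h0 (by simp)⟩
  · refine ⟨_, Or.inr ⟨(⟨j, fun _ => Sum.inr 0⟩, true), rfl,
      ⟨fun _ => ⟨j, hDS j hj⟩, ?_⟩, ?_, rfl⟩, iff_of_true rfl rfl⟩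
    · rintro (i | i) (i' | i') _
      · exact i.elim0
      · exact i.elim0
      · exact i'.elim0
      · congr 1
        exact Subsingleton.elim _ _
    · intro i
      exact i.elim0

theorem exists_L {m k : ℕ} (hm : m ≠ 0) (hk : 1 ≤ k) :
    ∃ L, 0 < L ∧ L ≤ m ^ 2 * k ^ m.primeFactors.card ∧
      (∀ q : ℕ, q.Prime → q ∣ m → ∃ e, k ≤ q ^ e ∧ m * q ^ e ∣ L) ∧
      ∀ r : ℕ, r.Coprime m → r.Coprime L := by
  refine ⟨m * ∏ q ∈ m.primeFactors, q ^ Nat.clog q k, ?_, ?_, ?_, ?_⟩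
  · apply Nat.mul_pos (Nat.pos_of_ne_zero hm)
    apply Finset.prod_pos
    intro q hq
    exact pow_pos (Nat.prime_of_mem_primeFactors hq).pos _
  · have h1 : ∀ q ∈ m.primeFactors, q ^ Nat.clog q k ≤ q * k := by
      intro q hq
      have hq' := Nat.prime_of_mem_primeFactors hq
      rcases Nat.lt_or_ge 1 k with h | h
      · have h2 := Nat.pow_pred_clog_lt_self hq'.one_lt h
        have h3 := Nat.clog_pos hq'.one_lt h
        obtain ⟨c, hc⟩ : ∃ c, Nat.clog q k = c + 1 := ⟨Nat.clog q k - 1, by omega⟩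
        rw [hc] at h2 ⊢
        simp only [Nat.pred_eq_sub_one, Nat.add_sub_cancel] at h2
        rw [pow_succ, mul_comm]
        exact Nat.mul_le_mul_left _ h2.le
      · rw [Nat.clog_of_right_le_one h, pow_zero]
        exact Nat.mul_pos hq'.pos (by omega)
    have h2 := Finset.prod_le_prod' h1
    rw [Finset.prod_mul_distrib, Finset.prod_const] at h2
    have h3 : ∏ q ∈ m.primeFactors, q ≤ m :=
      Nat.le_of_dvd (Nat.pos_of_ne_zero hm) (Nat.prod_primeFactors_dvd m)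
    calc m * ∏ q ∈ m.primeFactors, q ^ Nat.clog q k
        ≤ m * ((∏ q ∈ m.primeFactors, q) * k ^ m.primeFactors.card) := Nat.mul_le_mul_left _ h2
      _ ≤ m * (m * k ^ m.primeFactors.card) :=
        Nat.mul_le_mul_left _ (Nat.mul_le_mul_right _ h3)
      _ = m ^ 2 * k ^ m.primeFactors.card := by ring
  · intro q hq hqm
    refine ⟨Nat.clog q k, Nat.le_pow_clog hq.one_lt k, Nat.mul_dvd_mul_left m ?_⟩
    exact Finset.dvd_prod_of_mem (fun q => q ^ Nat.clog q k)
      (Nat.mem_primeFactors.2 ⟨hq, hqm, hm⟩)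
  · intro r hr
    apply Nat.Coprime.mul_right hr
    apply Nat.Coprime.prod_right
    intro q hq
    exact Nat.Coprime.pow_right _ (Nat.Coprime.coprime_dvd_right (Nat.dvd_of_mem_primeFactors hq) hr)

variable {A B H : Type} [DecidableEq A] [DecidableEq B] [Fintype A] [Fintype B]
  [Fintype H] [DecidableEq H]

theorem php_lower_boundM {m k b : ℕ} [NeZero m] (hb : 2 ≤ b) (hk : 3 ≤ k) (D : Finset H)
    (hlt : Fintype.card H < Fintype.card A + Fintype.card B)
    (hD : m ^ 2 * k ^ m.primeFactors.card ≤ D.card + 1)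
    (hroom : Fintype.card B + (b + 3) * k + m ^ 2 * k ^ m.primeFactors.card ≤ Fintype.card H)
    {𝒢 : Type} [Fintype 𝒢] [DecidableEq 𝒢] [MulAction (Perm A) 𝒢]
    (C : Circuit m (Atom (fun _ : H => 1) (A ⊕ B)) 𝒢) (hC : C.Symmetric A)
    (hder : Der C (clauses (phpAxioms D) (A ⊕ B)) b ∅) :
    (Fintype.card A).choose k ≤ 4 * (Fintype.card 𝒢) ^ 3 := by
  obtain ⟨L, hL, hLK, hdiv, -⟩ := exists_L (k := k) (NeZero.ne m) (by omega)
  generalize hK : m ^ 2 * k ^ m.primeFactors.card = K at *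
  obtain ⟨d, hd⟩ : ∃ d, d = Fintype.card A + Fintype.card B - Fintype.card H := ⟨_, rfl⟩
  obtain ⟨t, ht⟩ : ∃ t, t = (d + L - 1) / L := ⟨_, rfl⟩
  have h1 : d ≤ L * t := by
    have h2 := Nat.div_add_mod (d + L - 1) L
    have h3 := Nat.mod_lt (d + L - 1) hL
    rw [← ht] at h2
    omega
  have h2 : L * t ≤ d + L - 1 := by
    rw [ht]
    exact Nat.mul_div_le _ _
  have hDcard : Dᶜ.card = Fintype.card H - D.card := Finset.card_compl D
  obtain ⟨S, hDS, -, hS⟩ := Finset.exists_subsuperset_card_eq (s := Dᶜ)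
    (t := (Finset.univ : Finset H)) (n := Fintype.card A + Fintype.card B - L * t)
    (Finset.subset_univ _) (by omega) (by rw [Finset.card_univ]; omega)
  have hx : Fintype.card A + Fintype.card B = Fintype.card {j // j ∈ S} + L * t := by
    rw [Fintype.card_coe, hS]; omega
  exact fo_lower_bound (x := L * t) hb (by omega)
    (fun v : Atom (fun _ : H => 1) {j // j ∈ S} => (v.2 0).1 = v.1) (phpAxioms D)
    (models_php D S (fun j hj => hDS (Finset.mem_compl.2 hj))) (fun _ => by omega)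
    (by
      rintro θ (rfl | ⟨j, j', _, rfl⟩ | ⟨j, rfl⟩ | ⟨j, _, rfl⟩)
      · show 1 < k; omega
      · show 1 < k; omega
      · show 2 < k; omega
      · show 0 < k; omega)
    hx (by omega)
    (fun q hq hqm => by
      obtain ⟨e, he, he'⟩ := hdiv q hq hqm
      exact ⟨e, he, he'.mul_right t⟩) C hC hder

end Pool.Agent.W956.SMP
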