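import Mathlib
import Pool.Agent.W956.SMP.Php

/-! # Asymptotic form of the lower bound for the pigeonhole principle -/

namespace Pool.Agent.W956.SMP

open Equiv Pool.Agent.H694R2.SymMod
open Pool.Agent.H694R2.SymGap (Atom Schema clauses Models)

theorem two_pow_le_centralBinom (k : ℕ) : 2 ^ k ≤ Nat.centralBinom k := by
  induction k with
  | zero => simp
  | succ k ih =>
    have h1 := Nat.succ_mul_centralBinom_succ k
    have h2 : (k + 1) * (2 * Nat.centralBinom k) ≤ (k + 1) * Nat.centralBinom (k + 1) := by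
      rw [h1]
      calc (k + 1) * (2 * Nat.centralBinom k) = 2 * (k + 1) * Nat.centralBinom k := by ring
        _ ≤ 2 * (2 * k + 1) * Nat.centralBinom k := by
          apply Nat.mul_le_mul_right
          omega
    have h3 := Nat.le_of_mul_le_mul_left h2 (Nat.succ_pos k)
    rw [pow_succ, mul_comm]
    exact (Nat.mul_le_mul_left 2 ih).trans h3

theorem two_pow_le_choose {a k : ℕ} (h : 2 * k ≤ a) : 2 ^ k ≤ a.choose k := by
  refine (two_pow_le_centralBinom k).trans ?_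
  rw [Nat.centralBinom_eq_two_mul_choose]
  exact Nat.choose_le_choose k h

/-- a suitable choice of the parameter `k` -/
theorem exists_k (K s ω : ℕ) (hK0 : 0 < K) (hω : ω ≠ 0) :
    ∃ (c : ℝ) (N : ℕ), 0 < c ∧ ∀ n : ℕ, N ≤ n → ∃ k, s ≤ k ∧ K * k ^ ω ≤ n ∧
      ∀ G : ℕ, 2 ^ k ≤ 4 * G ^ 3 → Real.exp (c * (n : ℝ) ^ (1 / (ω : ℝ))) ≤ G := by
  have hKR : (0 : ℝ) < K := by exact_mod_cast hK0
  have hωR : (0 : ℝ) < ω := by exact_mod_cast Nat.pos_of_ne_zero hω
  have hlog : 0 < Real.log 2 := Real.log_pos (by norm_num)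
  refine ⟨Real.log 2 / 6 * (1 / (K : ℝ)) ^ (1 / (ω : ℝ)), K * (s + 6) ^ ω, by positivity, ?_⟩
  intro n hn
  have hnR : (K : ℝ) * ((s : ℝ) + 6) ^ ω ≤ n := by exact_mod_cast hn
  have hs0 : (0 : ℝ) ≤ s := Nat.cast_nonneg s
  obtain ⟨y, hy⟩ : ∃ y : ℝ, y = ((n : ℝ) / K) ^ (1 / (ω : ℝ)) := ⟨_, rfl⟩
  have hnK : (0 : ℝ) ≤ (n : ℝ) / K := by positivity
  have hyω : y ^ ω = (n : ℝ) / K := by
    rw [hy, ← Real.rpow_natCast, ← Real.rpow_mul hnK, one_div, inv_mul_cancel₀ hωR.ne',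
      Real.rpow_one]
  have hy0 : 0 ≤ y := by rw [hy]; positivity
  have hy6 : (s : ℝ) + 6 ≤ y := by
    by_contra hcon
    push Not at hcon
    have h1 : y ^ ω < ((s : ℝ) + 6) ^ ω := pow_lt_pow_left₀ hcon hy0 hω
    rw [hyω, div_lt_iff₀ hKR] at h1
    nlinarith
  refine ⟨⌊y⌋₊, ?_, ?_, ?_⟩
  · exact (Nat.le_floor_iff hy0).2 (by linarith)
  · have h1 : ((⌊y⌋₊ : ℕ) : ℝ) ≤ y := Nat.floor_le hy0
    have h2 : (((⌊y⌋₊) ^ ω : ℕ) : ℝ) ≤ n / K := by
      push_cast
      rw [← hyω]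
      exact pow_le_pow_left₀ (Nat.cast_nonneg _) h1 ω
    rw [le_div_iff₀ hKR] at h2
    have h3 : ⌊y⌋₊ ^ ω * K ≤ n := by exact_mod_cast h2
    rw [mul_comm]
    exact h3
  · intro G hG
    have h1 : y < ⌊y⌋₊ + 1 := Nat.lt_floor_add_one y
    have hG' : (2 : ℝ) ^ (⌊y⌋₊ : ℕ) ≤ 4 * (G : ℝ) ^ 3 := by exact_mod_cast hG
    have hGpos : (0 : ℝ) < G := by
      rcases Nat.eq_zero_or_pos G with h | h
      · rw [h] at hG'
        have : (0 : ℝ) < 2 ^ (⌊y⌋₊ : ℕ) := by positivity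
        simp at hG'
        linarith
      · exact_mod_cast h
    have h2 : (⌊y⌋₊ : ℝ) * Real.log 2 ≤ 2 * Real.log 2 + 3 * Real.log G := by
      have h3 := Real.log_le_log (by positivity) hG'
      rw [Real.log_pow, Real.log_mul (by norm_num) (by positivity), Real.log_pow] at h3
      have h4 : Real.log 4 = 2 * Real.log 2 := by
        rw [show (4 : ℝ) = 2 ^ 2 by norm_num, Real.log_pow]
        push_cast; ring
      rw [h4] at h3
      push_cast at h3
      linarith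
    rw [← Real.le_log_iff_exp_le hGpos]
    have h5 : (n : ℝ) ^ (1 / (ω : ℝ)) * (1 / (K : ℝ)) ^ (1 / (ω : ℝ)) = y := by
      rw [← Real.mul_rpow (by positivity) (by positivity), hy]
      congr 1
      ring
    have h6 : Real.log 2 / 6 * (1 / (K : ℝ)) ^ (1 / (ω : ℝ)) * (n : ℝ) ^ (1 / (ω : ℝ)) =
        Real.log 2 / 6 * y := by
      rw [← h5]; ring
    rw [h6]
    nlinarith

/-- **Asymptotic form.** -/
theorem php_asym (m b : ℕ) (hm : 2 ≤ m) (hb : 2 ≤ b) :
    ∃ (c : ℝ) (N : ℕ), 0 < c ∧ ∀ (A B H : Type) [Fintype A] [DecidableEq A] [Fintype B]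
      [DecidableEq B] [Fintype H] [DecidableEq H] (D : Finset H),
      N ≤ Fintype.card H → Fintype.card H < Fintype.card A + Fintype.card B →
      2 * Fintype.card B ≤ Fintype.card H → Fintype.card H ≤ 2 * D.card →
      ∀ (𝒢 : Type) [Fintype 𝒢] [DecidableEq 𝒢] [MulAction (Perm A) 𝒢] [NeZero m]
        (C : Circuit m (Atom (fun _ : H => 1) (A ⊕ B)) 𝒢), C.Symmetric A →
        Der C (clauses (phpAxioms D) (A ⊕ B)) b ∅ →
        Real.exp (c * (Fintype.card H : ℝ) ^ (1 / (m.primeFactors.card : ℝ))) ≤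
          Fintype.card 𝒢 := by
  have hω : m.primeFactors.card ≠ 0 := by
    rw [Finset.card_ne_zero]
    exact Nat.nonempty_primeFactors.2 (by omega)
  obtain ⟨c, N, hc, hk⟩ := exists_k (2 * (b + 3 + m ^ 2)) 3 m.primeFactors.card (by omega) hω
  refine ⟨c, N, hc, ?_⟩
  intro A B H _ _ _ _ _ _ D hN hlt hB hDc 𝒢 _ _ _ _ C hC hder
  obtain ⟨k, hk3, hkn', hG⟩ := hk _ hN
  have hkn : 2 * ((b + 3) * k + m ^ 2 * k ^ m.primeFactors.card) ≤ Fintype.card H := by
    have h4 : k ≤ k ^ m.primeFactors.card := Nat.le_self_pow hω _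
    refine le_trans ?_ hkn'
    have h6 := Nat.mul_le_mul_left (b + 3) h4
    calc 2 * ((b + 3) * k + m ^ 2 * k ^ m.primeFactors.card)
        ≤ 2 * ((b + 3) * k ^ m.primeFactors.card + m ^ 2 * k ^ m.primeFactors.card) :=
          Nat.mul_le_mul_left 2 (Nat.add_le_add_right h6 _)
      _ = 2 * (b + 3 + m ^ 2) * k ^ m.primeFactors.card := by ring
  apply hG
  have h1 := php_lower_boundM (k := k) hb hk3 D hlt (by omega) (by omega) C hC hder
  refine le_trans (two_pow_le_choose ?_) h1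
  have h2 : 3 * k ≤ (b + 3) * k := Nat.mul_le_mul_right _ (by omega)
  omega

end Pool.Agent.W956.SMP
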