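import Mathlib
import Pool.Agent.H694R2.SymCount
import Pool.Agent.W956.SMP.Asym

/-! # The counting principle, any modulus -/

namespace Pool.Agent.W956.SMP

open Equiv Pool.Agent.H522R2.SmallIndex Pool.Agent.H694R2.SymMod
open Pool.Agent.H694R2.SymCount (countClauses St mem_smul smul_eq_of_fix sup_block card_block)
open scoped Pointwise

variable {A : Type} [DecidableEq A] [Fintype A]

theorem near_countM {q x k m : ℕ} (hq : 2 * q ≤ k) (hk : 2 ≤ k) (hm : m ≠ 0)
    (hdiv : ∀ q : ℕ, q.Prime → q ∣ m → ∃ e, k ≤ q ^ e ∧ m * q ^ e ∣ x)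
    (hxA : x ≤ Fintype.card A) (hdvd : q ∣ Fintype.card A - x) (hq0 : 1 ≤ q) :
    NearM A (countClauses A q) m k x (St (A := A) q x) where
  card := fun X a h => h.card.le
  move := by
    intro X a h σ
    refine ⟨?_, ?_, ?_, ?_⟩
    · rw [Finset.card_image_of_injective _ σ.injective, h.card]
    · intro e he
      rw [Finset.disjoint_left]
      intro i hi hiX
      obtain ⟨j, hj, rfl⟩ := Finset.mem_image.1 hiX
      have h1 := h.dis _ he
      rw [Finset.disjoint_left] at h1
      apply h1 _ hj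
      rw [mem_smul]
      simpa using hi
    · intro i hi
      have hi' : σ⁻¹ i ∉ X := by
        intro h'
        exact hi (Finset.mem_image.2 ⟨_, h', by simp⟩)
      obtain ⟨e, he, hie⟩ := h.cov _ hi'
      refine ⟨σ • e, by rw [inv_smul_smul]; exact he, ?_⟩
      rw [mem_smul]; exact hie
    · intro e f he hf hef
      have h1 := h.sep _ _ he hf (fun h' => hef (by
        have := congrArg (fun v => σ • v) h'
        simpa using this))
      rw [Finset.disjoint_left] at h1 ⊢
      intro i hi hif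
      apply h1 (a := σ⁻¹ i)
      · rw [mem_smul]; simpa using hi
      · rw [mem_smul]; simpa using hif
  var := by
    intro e
    exact ⟨(e : Finset A), by rw [card_block]; omega, sup_block e subset_rfl⟩
  ax := by
    rintro α (⟨i, rfl⟩ | ⟨e, f, hef, hnd, rfl⟩)
    · refine ⟨{i}, by simp; omega, ?_⟩
      intro X a h hd
      have hi : i ∉ X := by simpa using hd
      obtain ⟨e, he, hie⟩ := h.cov i hi
      exact ⟨(e, true), ⟨hie, rfl⟩, ⟨(e : Finset A), by rw [card_block]; omega, h.dis e he,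
        sup_block e subset_rfl⟩, by simp [he]⟩
    · refine ⟨(e : Finset A) ∪ (f : Finset A), ?_, ?_⟩
      · have h1 := Finset.card_union_add_card_inter (e : Finset A) (f : Finset A)
        have h2 : 1 ≤ ((e : Finset A) ∩ (f : Finset A)).card := by
          rw [Nat.one_le_iff_ne_zero]
          intro h0
          exact hnd (Finset.disjoint_iff_inter_eq_empty.2 (Finset.card_eq_zero.1 h0))
        rw [card_block, card_block] at h1
        omega
      · intro X a h hd
        obtain ⟨hd1, hd2⟩ := Finset.disjoint_union_left.1 hd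
        by_cases he : a e
        · refine ⟨(f, false), by simp, ⟨(f : Finset A), by rw [card_block]; omega, hd2,
            sup_block f subset_rfl⟩, ?_⟩
          simp only [Bool.false_eq_true, iff_false]
          intro hf
          exact hnd (h.sep e f he hf hef)
        · exact ⟨(e, false), by simp, ⟨(e : Finset A), by rw [card_block]; omega, hd1,
            sup_block e subset_rfl⟩, by simp [he]⟩
  shift := by
    intro X a h
    obtain ⟨g, h1, h2, h3⟩ := exists_shiftM X (k := k) hm (by rw [h.card]; exact hdiv)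
    refine ⟨g, h1, h2, ?_, h3⟩
    intro v
    by_cases hv : Disjoint (v : Finset A) X
    · rw [smul_eq_of_fix g v (fun i hi => h2 i (Finset.disjoint_left.1 hv hi))]
    · have e1 : ¬ a v := fun h' => hv (h.dis v h')
      have e2 : ¬ a (g • v) := by
        intro h'
        apply hv
        have h5 := h.dis _ h'
        rw [Finset.disjoint_left] at h5 ⊢
        intro i hi hiX
        apply h5 (a := g i)
        · rw [mem_smul]; simpa using hi
        · by_contra hgi
          have := h2 _ hgi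
          rw [g.injective this] at hgi
          exact hgi hiX
      simp [e1, e2]
  ne := by
    classical
    obtain ⟨X, hXc⟩ : ∃ X : Finset A, X.card = x := by
      obtain ⟨X, _, hX⟩ := Finset.exists_subset_card_eq (s := (Finset.univ : Finset A)) (n := x)
        (by rw [Finset.card_univ]; exact hxA)
      exact ⟨X, hX⟩
    obtain ⟨r, hr⟩ := hdvd
    let ψ : {y // y ∉ X} ≃ Fin r × Fin q := Fintype.equivOfCardEq (by
      rw [Fintype.card_subtype_compl, Fintype.card_coe, hXc, hr, Fintype.card_prod,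
        Fintype.card_fin, Fintype.card_fin, mul_comm])
    let blk : Fin r → Finset A := fun j =>
      (Finset.univ : Finset (Fin q)).image (fun i => (ψ.symm (j, i)).1)
    have hblk : ∀ j, (blk j).card = q := by
      intro j
      rw [Finset.card_image_of_injective, Finset.card_univ, Fintype.card_fin]
      intro i i' h
      have := ψ.symm.injective (Subtype.ext h)
      exact (Prod.mk.injEq _ _ _ _).mp this |>.2
    have hmemblk : ∀ j (y : A), y ∈ blk j ↔ ∃ h : y ∉ X, (ψ ⟨y, h⟩).1 = j := by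
      intro j y
      simp only [blk, Finset.mem_image, Finset.mem_univ, true_and]
      constructor
      · rintro ⟨i, rfl⟩
        exact ⟨(ψ.symm (j, i)).2, by simp⟩
      · rintro ⟨h, h'⟩
        refine ⟨(ψ ⟨y, h⟩).2, ?_⟩
        rw [← h']
        simp
    refine ⟨X, fun e => ∃ j, (e : Finset A) = blk j, ⟨hXc, ?_, ?_, ?_⟩⟩
    · rintro e ⟨j, hj⟩
      rw [hj, Finset.disjoint_left]
      intro i hi
      exact ((hmemblk j i).1 hi).1
    · intro i hi
      refine ⟨⟨blk (ψ ⟨i, hi⟩).1, hblk _⟩, ⟨_, rfl⟩, ?_⟩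
      show i ∈ blk (ψ ⟨i, hi⟩).1
      rw [hmemblk]
      exact ⟨hi, rfl⟩
    · rintro e f ⟨j, hj⟩ ⟨j', hj'⟩ hef
      rw [hj, hj', Finset.disjoint_left]
      intro i hi hi'
      obtain ⟨h1, h2⟩ := (hmemblk j i).1 hi
      obtain ⟨h3, h4⟩ := (hmemblk j' i).1 hi'
      apply hef
      apply Subtype.ext
      have : (e : Finset A) = (f : Finset A) := by rw [hj, hj', ← h2, ← h4]
      exact this


theorem count_lower_boundM {m q q' d k b : ℕ} [NeZero m] (hb : 2 ≤ b) (hqk : 2 * q ≤ k)
    (hq0 : 1 ≤ q) (hqd : q = d * q') (hco : q'.Coprime m) (hdA : d ∣ Fintype.card A)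
    (hroom : q * (m ^ 2 * k ^ m.primeFactors.card) + (b + 3) * k ≤ Fintype.card A)
    {𝒢 : Type} [Fintype 𝒢] [DecidableEq 𝒢] [MulAction (Perm A) 𝒢]
    [DecidableEq (Set.powersetCard A q)] [Fintype (Set.powersetCard A q)]
    (C : Circuit m (Set.powersetCard A q) 𝒢) (hC : C.Symmetric A)
    (hD : Der C (countClauses A q) b ∅) :
    (Fintype.card A).choose k ≤ 4 * (Fintype.card 𝒢) ^ 3 := by
  obtain ⟨L, hL, hLK, hdiv, hLco⟩ := exists_L (k := k) (NeZero.ne m) (by omega)
  obtain ⟨n₁, hn₁⟩ := hdA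
  have hco' := hLco q' hco
  have hq'0 : q' ≠ 0 := by rintro rfl; omega
  obtain ⟨m1, m2⟩ := (Nat.chineseRemainder hco' n₁ 0).2
  have m3 := Nat.chineseRemainder_lt_mul hco' n₁ 0 hq'0 hL.ne'
  obtain ⟨x₁, hx₁⟩ : ∃ x₁ : ℕ, x₁ = (Nat.chineseRemainder hco' n₁ 0 : ℕ) := ⟨_, rfl⟩
  rw [← hx₁] at m1 m2 m3
  obtain ⟨t, ht⟩ := (Nat.modEq_zero_iff_dvd.1 m2)
  have hx1 : d * x₁ ≤ q * (m ^ 2 * k ^ m.primeFactors.card) := by
    calc d * x₁ ≤ d * (q' * L) := Nat.mul_le_mul_left _ m3.le
      _ = q * L := by rw [hqd]; ring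
      _ ≤ _ := Nat.mul_le_mul_left _ hLK
  have hxA : d * x₁ ≤ Fintype.card A := by omega
  have hd0 : 0 < d := by
    rcases Nat.eq_zero_or_pos d with h | h
    · rw [h] at hqd; omega
    · exact h
  have hle : x₁ ≤ n₁ := by
    rw [hn₁] at hxA
    exact Nat.le_of_mul_le_mul_left hxA hd0
  have hdvd : q ∣ Fintype.card A - d * x₁ := by
    rw [hn₁, hqd, ← Nat.mul_sub]
    exact Nat.mul_dvd_mul_left d ((Nat.modEq_iff_dvd' hle).1 m1)
  have hN := near_countM (A := A) (q := q) (x := d * x₁) (k := k) (m := m) hqk (by omega)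
    (NeZero.ne m) (fun p hp hpm => by
      obtain ⟨e, he, he'⟩ := hdiv p hp hpm
      refine ⟨e, he, ?_⟩
      rw [ht]
      exact (he'.mul_right t).mul_left d) hxA hdvd hq0
  exact lower_boundM hC hN (by omega) (by omega) hb hD

/-- **Asymptotic form.** -/
theorem count_asym (m b q q' d : ℕ) (hm : 2 ≤ m) (hb : 2 ≤ b) (hq : 1 ≤ q) (hqd : q = d * q')
    (hco : q'.Coprime m) :
    ∃ (c : ℝ) (N : ℕ), 0 < c ∧ ∀ (A : Type) [Fintype A] [DecidableEq A],
      N ≤ Fintype.card A → d ∣ Fintype.card A →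
      ∀ (𝒢 : Type) [Fintype 𝒢] [DecidableEq 𝒢] [MulAction (Perm A) 𝒢] [NeZero m]
        [DecidableEq (Set.powersetCard A q)] [Fintype (Set.powersetCard A q)]
        (C : Circuit m (Set.powersetCard A q) 𝒢), C.Symmetric A →
        Der C (countClauses A q) b ∅ →
        Real.exp (c * (Fintype.card A : ℝ) ^ (1 / (m.primeFactors.card : ℝ))) ≤
          Fintype.card 𝒢 := by
  have hω : m.primeFactors.card ≠ 0 := by
    rw [Finset.card_ne_zero]
    exact Nat.nonempty_primeFactors.2 (by omega)
  obtain ⟨c, N, hc, hk⟩ := exists_k (q * m ^ 2 + (b + 3)) (2 * q + 3) m.primeFactors.card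
    (by omega) hω
  refine ⟨c, N, hc, ?_⟩
  intro A _ _ hN hdA 𝒢 _ _ _ _ _ _ C hC hder
  obtain ⟨k, hk3, hkn, hG⟩ := hk _ hN
  apply hG
  have h4 : k ≤ k ^ m.primeFactors.card := Nat.le_self_pow hω _
  have h5 : q * (m ^ 2 * k ^ m.primeFactors.card) + (b + 3) * k ≤ Fintype.card A := by
    refine le_trans ?_ hkn
    have h6 := Nat.mul_le_mul_left (b + 3) h4
    calc q * (m ^ 2 * k ^ m.primeFactors.card) + (b + 3) * k
        ≤ q * (m ^ 2 * k ^ m.primeFactors.card) + (b + 3) * k ^ m.primeFactors.card :=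
          Nat.add_le_add_left h6 _
      _ = (q * m ^ 2 + (b + 3)) * k ^ m.primeFactors.card := by ring
  have h1 := count_lower_boundM (k := k) hb (by omega) hq hqd hco hdA h5 C hC hder
  refine le_trans (two_pow_le_choose ?_) h1
  have h2 : 3 * k ≤ (b + 3) * k := Nat.mul_le_mul_right _ (by omega)
  omega

end Pool.Agent.W956.SMP
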